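import Mathlib
import Pool.Agent.H383.Short
import Pool.Agent.H383.GenAp2

open MeasureTheory Set Filter Topology
open Pool.Agent.H383.Gauss Pool.Agent.H383.Gen

namespace Pool.Agent.H452R2.Div.Sh

/-- coefficient of the frequency `√m` -/
noncomputable def bw (a : ℕ → ℝ) (φ β δ : ℝ) (m : ℕ) : ℂ :=
  (a m : ℂ) * (Complex.exp (((2 * Real.pi * (β * √(m:ℝ)) - φ : ℝ) : ℂ) * Complex.I) *
    (Pool.Agent.H383.Gen.cf (√(m:ℝ) * δ))^2)

lemma norm_bw_sq_le (a : ℕ → ℝ) (φ β : ℝ) {δ : ℝ} (hδ : 0 < δ) {m : ℕ} (hm : 1 ≤ m) :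
    ‖bw a φ β δ m‖^2 ≤ (a m)^2 * min 1 (1/(δ * √(m:ℝ))) := by
  have hm0 : (0:ℝ) < m := by exact_mod_cast hm
  have hs : 0 < √(m:ℝ) := Real.sqrt_pos.mpr hm0
  have h1 := cf_le_one (√(m:ℝ) * δ)
  have h2 := cf_le (y := √(m:ℝ) * δ) (by positivity)
  set c := ‖Pool.Agent.H383.Gen.cf (√(m:ℝ) * δ)‖ with hc
  have hc0 : 0 ≤ c := norm_nonneg _
  have e : ‖bw a φ β δ m‖ = |a m| * c^2 := by
    unfold bw
    rw [norm_mul, norm_mul, Complex.norm_exp_ofReal_mul_I, one_mul, norm_pow, Complex.norm_real,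
      Real.norm_eq_abs]
  rw [e, mul_pow, sq_abs]
  apply mul_le_mul_of_nonneg_left _ (sq_nonneg _)
  have h3 : (c^2)^2 ≤ c := by
    have : c^2 ≤ 1 := pow_le_one₀ hc0 h1
    have h4 : c^3 ≤ 1 := pow_le_one₀ hc0 h1
    nlinarith
  apply le_min
  · exact h3.trans h1
  · refine h3.trans (h2.trans (le_of_eq ?_))
    rw [mul_comm]

/-- the bound for the quadratic form, for short progressions -/
theorem quad_gen {a : ℕ → ℝ} {ε C1 : ℝ} (hε : 0 < ε) (hC1 : 0 < C1)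
    (ha : ∀ m : ℕ, 1 ≤ m → |a m| ≤ C1 * (m:ℝ)^(ε/8) * (m:ℝ)^(-(3/4):ℝ)) (φ : ℝ)
    {α : ℝ} (hα : 0 < α) : ∃ C : ℝ, 0 < C ∧
    ∀ (β δ : ℝ) (Y L : ℕ), 0 < δ → 1 ≤ Y → 1 ≤ L →
    ∑ i ∈ Finset.Icc 1 (Y^2), ∑ j ∈ Finset.Icc 1 (Y^2), ‖bw a φ β δ i‖ * ‖bw a φ β δ j‖ *
      near L (α * √(i:ℝ) - α * √(j:ℝ)) ≤ C * (1 + 1/(L * δ)) * (Y:ℝ) ^ ε := by
  refine ⟨(α + 2) * (1 + 4/α) * (1 + 4/ε)^2 * (16 * C1^2) * 2, by positivity, ?_⟩
  intro β δ Y L hδ hY hL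
  have hY' : (1:ℝ) ≤ Y := by exact_mod_cast hY
  have hL' : (1:ℝ) ≤ L := by exact_mod_cast hL
  have hpi := Real.pi_gt_three
  set s := Finset.Icc 1 (Y^2) with hs
  set p : ℕ → ℝ := fun m => (1/√(m:ℝ)) * min 1 (1/(δ * √(m:ℝ))) with hp
  have hpos : ∀ m ∈ s, 0 < √(m:ℝ) := by
    intro m hm
    rw [hs, Finset.mem_Icc] at hm
    apply Real.sqrt_pos.mpr
    exact_mod_cast hm.1
  have hppos : ∀ m ∈ s, 0 < p m := by
    intro m hm
    have := hpos m hm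
    simp only [hp]
    positivity
  have hsch := schur s (fun i => ‖bw a φ β δ i‖) p (fun i j => near L (α * √(i:ℝ) - α * √(j:ℝ)))
    hppos (fun i j => near_nonneg _ _) (fun i j => by
      rw [← near_symm]; congr 1; ring)
  refine hsch.trans ?_
  have hlog : 1 + Real.log Y ≤ (1 + 4/ε) * (Y:ℝ) ^ (ε/4) := by
    have h1 := Real.log_le_rpow_div (x := (Y:ℝ)) (by positivity) (ε := ε/4) (by positivity)
    have h2 : 1 ≤ (Y:ℝ) ^ (ε/4) := Real.one_le_rpow hY' (by positivity)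
    have h3 : (Y:ℝ) ^ (ε/4) / (ε/4) = 4/ε * (Y:ℝ)^(ε/4) := by field_simp
    rw [h3] at h1
    nlinarith
  have hlog0 : 0 ≤ Real.log Y := Real.log_nonneg hY'
  -- inner sums
  have hinner : ∀ i ∈ s, ∑ j ∈ s, near L (α * √(i:ℝ) - α * √(j:ℝ)) * p j ≤
      (α + 2) * ((1 + 4/α) * (1 + 1/(L*δ))) * (1 + Real.log Y) := by
    intro i _
    have h1 := sum_blocks (t := α * √(i:ℝ)) hα hL Y p (fun q => if q = 0 then 0 else (1/(q:ℝ)) * min 1 (1/(δ * q)))
      (fun q => by split_ifs; exact le_rfl; positivity) ?_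
    · refine h1.trans ?_
      have h2 : ∀ q ∈ Finset.Icc 1 Y, (α + 2) * (1 + 2 * ((q:ℝ)+1) / (α * L)) * (if q = 0 then 0 else (1/(q:ℝ)) * min 1 (1/(δ * q))) ≤
          (α + 2) * ((1 + 4/α) * (1 + 1/(L*δ))) * (1/(q:ℝ)) := by
        intro q hq
        rw [Finset.mem_Icc] at hq
        have hq' : (1:ℝ) ≤ q := by exact_mod_cast hq.1
        rw [if_neg (by omega), mul_assoc, mul_assoc]
        apply mul_le_mul_of_nonneg_left _ (by positivity)
        have e1 : (1 + 2 * ((q:ℝ)+1) / (α * L)) ≤ 1 + (4/α) * (q / L) := by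
          have : 2 * ((q:ℝ)+1) / (α * L) ≤ (4/α) * (q / L) := by
            rw [div_mul_div_comm]
            apply div_le_div_of_nonneg_right _ (by positivity)
            linarith
          linarith
        have e2 : (q / L) * min 1 (1/(δ * q)) ≤ 1/(L*δ) := by
          calc (q / L) * min 1 (1/(δ * q)) ≤ (q/L) * (1/(δ * q)) := by
                apply mul_le_mul_of_nonneg_left (min_le_right _ _) (by positivity)
            _ = 1/(L*δ) := by field_simp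
        have e3 : min 1 (1/(δ * (q:ℝ))) ≤ 1 := min_le_left _ _
        have e4 : 0 ≤ min 1 (1/(δ * (q:ℝ))) := by positivity
        calc (1 + 2 * ((q:ℝ)+1) / (α * L)) * ((1/(q:ℝ)) * min 1 (1/(δ * q)))
            ≤ (1 + (4/α) * (q / L)) * ((1/(q:ℝ)) * min 1 (1/(δ * q))) := by gcongr
          _ = (1/(q:ℝ)) * (min 1 (1/(δ * q)) + (4/α) * ((q / L) * min 1 (1/(δ * q)))) := by ring
          _ ≤ (1/(q:ℝ)) * (1 + (4/α) * (1/(L*δ))) := by gcongr
          _ ≤ (1/(q:ℝ)) * ((1 + 4/α) * (1 + 1/(L*δ))) := by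
              apply mul_le_mul_of_nonneg_left _ (by positivity)
              have : 0 < 4/α := by positivity
              have : 0 < 1/(L*δ) := by positivity
              nlinarith
          _ = _ := by ring
      refine (Finset.sum_le_sum h2).trans ?_
      rw [← Finset.mul_sum]
      exact mul_le_mul_of_nonneg_left (sum_inv_le Y) (by positivity)
    · intro m hm
      have hm0 : m ≠ 0 := by omega
      have h0 : Nat.sqrt m ≠ 0 := by
        intro h; rw [Nat.sqrt_eq_zero] at h; exact hm0 h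
      simp only [hp]
      rw [if_neg h0]
      have h1 : (1:ℝ) ≤ Nat.sqrt m := by exact_mod_cast Nat.one_le_iff_ne_zero.mpr h0
      have h2 : (Nat.sqrt m : ℝ) ≤ √(m:ℝ) := Real.nat_sqrt_le_real_sqrt
      gcongr
  have houter : ∑ i ∈ s, ‖bw a φ β δ i‖^2 / p i ≤ (16 * C1^2) * ((Y:ℝ)^(ε/2) * (2 * (1 + Real.log Y))) := by
    have h1 : ∀ i ∈ s, ‖bw a φ β δ i‖^2 / p i ≤ (16 * C1^2) * (Y:ℝ)^(ε/2) * (1/(i:ℝ)) := by
      intro i hi
      have hi0 := hpos i hi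
      have hi' := hi
      rw [hs, Finset.mem_Icc] at hi'
      have hi1 : (1:ℝ) ≤ i := by exact_mod_cast hi'.1
      have hir : (0:ℝ) < i := by linarith
      have hr := ha i hi'.1
      have hr1 : (i:ℝ)^(ε/8) ≤ (Y:ℝ)^(ε/4) := by
        have e1 : (i:ℝ) ≤ (Y:ℝ)^2 := by exact_mod_cast hi'.2
        calc (i:ℝ)^(ε/8) ≤ ((Y:ℝ)^2)^(ε/8) := Real.rpow_le_rpow (by positivity) e1 (by positivity)
          _ = (Y:ℝ)^(ε/4) := by
              rw [← Real.rpow_natCast, ← Real.rpow_mul (by positivity)]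
              congr 1; push_cast; ring
      have hr2 : (a i)^2 ≤ C1^2 * (Y:ℝ)^(ε/2) * (1/(√(i:ℝ))^3) := by
        have e2 : (a i)^2 ≤ (C1 * (Y:ℝ)^(ε/4) * (i:ℝ)^(-(3/4):ℝ))^2 := by
          rw [← sq_abs]
          apply pow_le_pow_left₀ (abs_nonneg _)
          refine hr.trans ?_
          gcongr
        refine e2.trans (le_of_eq ?_)
        have e3 : ((i:ℝ)^(-(3/4):ℝ))^2 = 1/(√(i:ℝ))^3 := by
          rw [← Real.rpow_natCast, ← Real.rpow_mul hir.le, Real.sqrt_eq_rpow, ← Real.rpow_natCast,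
            ← Real.rpow_mul hir.le, one_div, ← Real.rpow_neg hir.le]
          norm_num
        have e4 : ((Y:ℝ)^(ε/4))^2 = (Y:ℝ)^(ε/2) := by
          rw [← Real.rpow_natCast, ← Real.rpow_mul (by positivity)]
          congr 1; push_cast; ring
        rw [mul_pow, mul_pow, e3, e4]
      set M := min 1 (1/(δ * √(i:ℝ))) with hM
      have hM0 : 0 < M := by positivity
      have hb := norm_bw_sq_le a φ β hδ hi'.1
      rw [← hM] at hb
      have e2 : (√(i:ℝ))^2 = i := Real.sq_sqrt (by positivity)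
      calc ‖bw a φ β δ i‖^2 / p i
          ≤ ((C1^2 * (Y:ℝ)^(ε/2) * (1/(√(i:ℝ))^3)) * M) / ((1/√(i:ℝ)) * M) := by
            have e5 : p i = (1/√(i:ℝ)) * M := rfl
            rw [e5]
            apply div_le_div_of_nonneg_right _ (by positivity)
            refine hb.trans ?_
            exact mul_le_mul_of_nonneg_right hr2 hM0.le
        _ = (C1^2) * (Y:ℝ)^(ε/2) * (1/(√(i:ℝ))^2) := by
            field_simp
        _ = (C1^2) * (Y:ℝ)^(ε/2) * (1/(i:ℝ)) := by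
            rw [e2]
        _ ≤ (16 * C1^2) * (Y:ℝ)^(ε/2) * (1/(i:ℝ)) := by
            gcongr
            nlinarith [sq_nonneg C1]
    refine (Finset.sum_le_sum h1).trans ?_
    rw [← Finset.mul_sum, mul_assoc]
    apply mul_le_mul_of_nonneg_left _ (by positivity)
    apply mul_le_mul_of_nonneg_left _ (by positivity)
    refine (sum_inv_le (Y^2)).trans ?_
    push_cast
    rw [Real.log_pow]
    push_cast
    linarith
  calc ∑ i ∈ s, ‖bw a φ β δ i‖^2 / p i * ∑ j ∈ s, near L (α * √(i:ℝ) - α * √(j:ℝ)) * p j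
      ≤ ∑ i ∈ s, ‖bw a φ β δ i‖^2 / p i * ((α + 2) * ((1 + 4/α) * (1 + 1/(L*δ))) * (1 + Real.log Y)) := by
        apply Finset.sum_le_sum
        intro i hi
        have := hppos i hi
        exact mul_le_mul_of_nonneg_left (hinner i hi) (by positivity)
    _ = (∑ i ∈ s, ‖bw a φ β δ i‖^2 / p i) * ((α + 2) * ((1 + 4/α) * (1 + 1/(L*δ))) * (1 + Real.log Y)) := by
        rw [Finset.sum_mul]
    _ ≤ ((16 * C1^2) * ((Y:ℝ)^(ε/2) * (2 * (1 + Real.log Y)))) * ((α + 2) * ((1 + 4/α) * (1 + 1/(L*δ))) * (1 + Real.log Y)) := by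
        apply mul_le_mul_of_nonneg_right houter (by positivity)
    _ ≤ ((16 * C1^2) * ((Y:ℝ)^(ε/2) * (2 * ((1 + 4/ε) * (Y:ℝ)^(ε/4))))) * ((α + 2) * ((1 + 4/α) * (1 + 1/(L*δ))) * ((1 + 4/ε) * (Y:ℝ)^(ε/4))) := by
        gcongr
    _ = (α + 2) * (1 + 4/α) * (1 + 4/ε)^2 * (16 * C1^2) * 2 * (1 + 1/(L*δ)) * ((Y:ℝ)^(ε/2) * (Y:ℝ)^(ε/4) * (Y:ℝ)^(ε/4)) := by ring
    _ = _ := by
        congr 1
        rw [← Real.rpow_add (by positivity), ← Real.rpow_add (by positivity)]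
        congr 1; ring

lemma wt_sum_eq_re (a : ℕ → ℝ) (φ α β δ : ℝ) (Y n : ℕ) :
    ∑ m ∈ Finset.Icc 1 (Y^2), wt a φ (β + n * α) δ m = (∑ m ∈ Finset.Icc 1 (Y^2), bw a φ β δ m *
      Complex.exp (((2 * Real.pi * (n * (α * √(m:ℝ))) : ℝ) : ℂ) * Complex.I)).re := by
  rw [Complex.re_sum]
  apply Finset.sum_congr rfl
  intro m _
  unfold wt bw
  have e : Complex.exp (((2 * Real.pi * ((β + n * α) * √(m:ℝ)) - φ : ℝ) : ℂ) * Complex.I) =
      Complex.exp (((2 * Real.pi * (β * √(m:ℝ)) - φ : ℝ) : ℂ) * Complex.I) *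
      Complex.exp (((2 * Real.pi * (n * (α * √(m:ℝ))) : ℝ) : ℂ) * Complex.I) := by
    rw [← Complex.exp_add]; congr 1; push_cast; ring
  rw [e, ← Complex.re_ofReal_mul]
  congr 1
  ring

/-- mean square of the truncated sums over short progressions -/
lemma wt_ms {a : ℕ → ℝ} {ε C1 : ℝ} (hε : 0 < ε) (hC1 : 0 < C1)
    (ha : ∀ m : ℕ, 1 ≤ m → |a m| ≤ C1 * (m:ℝ)^(ε/8) * (m:ℝ)^(-(3/4):ℝ)) (φ : ℝ)
    {α : ℝ} (hα : 0 < α) : ∃ C : ℝ, 0 < C ∧
    ∀ (β δ : ℝ) (Y L : ℕ), 0 < δ → 1 ≤ Y → 1 ≤ L →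
    ∑ j ∈ Finset.range L, (∑ m ∈ Finset.Icc 1 (Y^2), wt a φ (β + j * α) δ m)^2 ≤
      C * L * (1 + 1/(L * δ)) * (Y:ℝ) ^ ε := by
  obtain ⟨C, hC, hq⟩ := quad_gen hε hC1 ha φ hα
  refine ⟨8 * C, by positivity, ?_⟩
  intro β δ Y L hδ hY hL
  have h1 := ls (Finset.Icc 1 (Y^2)) (bw a φ β δ) (fun m => α * √(m:ℝ)) hL
  have h2 := hq β δ Y L hδ hY hL
  calc ∑ j ∈ Finset.range L, (∑ m ∈ Finset.Icc 1 (Y^2), wt a φ (β + j * α) δ m)^2
      ≤ ∑ j ∈ Finset.range (L+1), (∑ m ∈ Finset.Icc 1 (Y^2), wt a φ (β + j * α) δ m)^2 := by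
        apply Finset.sum_le_sum_of_subset_of_nonneg
        · exact Finset.range_subset_range.mpr (by omega)
        · intro _ _ _; positivity
    _ ≤ _ := by
        apply Finset.sum_le_sum
        intro j _
        rw [wt_sum_eq_re, ← sq_abs]
        exact pow_le_pow_left₀ (abs_nonneg _) (Complex.abs_re_le_norm _) 2
    _ ≤ _ := h1
    _ ≤ 8 * L * (C * (1 + 1/(L * δ)) * (Y:ℝ) ^ ε) := by
        apply mul_le_mul_of_nonneg_left h2 (by positivity)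
    _ = _ := by ring

end Pool.Agent.H452R2.Div.Sh
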