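import Mathlib
import Pool.Agent.H383.DivB
import Pool.Agent.H452R2.Div.S1

open MeasureTheory Set Filter Topology
open Pool.Agent.H387R2.Vor Pool.Agent.H383.Div Pool.Agent.H383.Gen

namespace Pool.Agent.H452R2.Div.Sh

/-- one-sided slow variation of the normalised error term, with any exponent above `1/2` -/
lemma Ed_step' {η : ℝ} (hη : 0 < η) : ∃ C : ℝ, 0 < C ∧ ∀ R s : ℝ, 1 ≤ R → 0 ≤ s → s ≤ 1 →
    Ed R ≤ Ed (R + s) + C * s * R ^ (1/2 + η) := by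
  refine ⟨3 * (2 * (2^η / η) + 2) + 12, by positivity, ?_⟩
  intro R s hR hs hs1
  have hR0 : 0 < R := by linarith
  have hsq : 0 < √R := Real.sqrt_pos.mpr hR0
  have hsq' : 0 < √(R + s) := Real.sqrt_pos.mpr (by linarith)
  have h7 : 1 ≤ R ^ η := Real.one_le_rpow hR hη.le
  have h1 : Del (R^2) ≤ Del ((R+s)^2) + (mt ((R+s)^2) - mt (R^2)) := by
    rw [Del_eq, Del_eq]
    have := Dsum_mono (show R^2 ≤ (R+s)^2 by nlinarith)
    linarith
  have h2 : mt ((R+s)^2) - mt (R^2) ≤ 3 * (2 * (2^η / η) + 2) * s * (R * R ^ η) := by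
    have h3 := mt_sub (show 1 ≤ R^2 by nlinarith) (show R^2 ≤ (R+s)^2 by nlinarith)
    have h4 : Real.log ((R+s)^2) ≤ 2 * (2^η / η) * R ^ η := by
      rw [Real.log_pow]
      have h5 := Real.log_le_rpow_div (show 0 ≤ R + s by linarith) hη
      have h6 : (R + s) ^ η ≤ 2^η * R ^ η := by
        calc (R + s) ^ η ≤ (2 * R) ^ η :=
              Real.rpow_le_rpow (by linarith) (by linarith) hη.le
          _ = 2 ^ η * R ^ η := Real.mul_rpow (by norm_num) hR0.le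
      have h6' : (R + s) ^ η / η ≤ (2^η / η) * R ^ η := by
        rw [div_mul_eq_mul_div]
        exact div_le_div_of_nonneg_right h6 hη.le
      push_cast
      linarith
    have h8 : (R+s)^2 - R^2 ≤ 3 * R * s := by nlinarith
    have h9 : 0 ≤ (R+s)^2 - R^2 := by nlinarith
    calc mt ((R+s)^2) - mt (R^2) ≤ ((R+s)^2 - R^2) * (Real.log ((R+s)^2) + 2) := h3
      _ ≤ ((R+s)^2 - R^2) * ((2 * (2^η / η) + 2) * R ^ η) := by
          apply mul_le_mul_of_nonneg_left _ h9; linarith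
      _ ≤ (3 * R * s) * ((2 * (2^η / η) + 2) * R ^ η) := by
          apply mul_le_mul_of_nonneg_right h8 (by positivity)
      _ = _ := by ring
  have h3 : Del ((R+s)^2) ≤ √R * Ed (R+s) + 12 * s * R := by
    have e : Del ((R+s)^2) = √(R+s) * Ed (R+s) := by unfold Ed; field_simp
    have h4 : √(R+s) - √R ≤ s / √R := by
      rw [le_div_iff₀ hsq]
      have a1 : √(R+s) * √(R+s) = R + s := Real.mul_self_sqrt (by linarith)
      have a2 : √R * √R = R := Real.mul_self_sqrt hR0.le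
      have a3 : √R ≤ √(R+s) := Real.sqrt_le_sqrt (by linarith)
      nlinarith
    have h4' : 0 ≤ √(R+s) - √R := by
      have a3 : √R ≤ √(R+s) := Real.sqrt_le_sqrt (by linarith)
      linarith
    have h5 : |Ed (R+s)| ≤ 3 * (R+s)^2 / √(R+s) := by
      unfold Ed
      rw [abs_div, abs_of_pos hsq']
      apply div_le_div_of_nonneg_right _ hsq'.le
      exact Del_abs (by nlinarith)
    have h6 : (√(R+s) - √R) * Ed (R+s) ≤ 12 * s * R := by
      have a4 : √R ≤ √(R+s) := Real.sqrt_le_sqrt (by linarith)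
      calc (√(R+s) - √R) * Ed (R+s) ≤ (√(R+s) - √R) * |Ed (R+s)| :=
            mul_le_mul_of_nonneg_left (le_abs_self _) h4'
        _ ≤ (s / √R) * (3 * (R+s)^2 / √(R+s)) := mul_le_mul h4 h5 (abs_nonneg _) (by positivity)
        _ ≤ (s / √R) * (3 * (R+s)^2 / √R) := by gcongr
        _ = s * (3 * (R+s)^2) / (√R * √R) := by field_simp
        _ = s * (3 * (R+s)^2) / R := by rw [Real.mul_self_sqrt hR0.le]
        _ ≤ s * (3 * (2*R)^2) / R := by gcongr; linarith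
        _ = 12 * s * R := by field_simp; ring
    rw [e]; linarith
  have h4 : √R * Ed R ≤ √R * Ed (R+s) + (3 * (2 * (2^η / η) + 2) + 12) * s * (R * R ^ η) := by
    have e : √R * Ed R = Del (R^2) := by unfold Ed; field_simp
    have h8 : 12 * s * R ≤ 12 * s * (R * R ^ η) := by
      apply mul_le_mul_of_nonneg_left _ (by positivity)
      nlinarith
    rw [e]; linarith
  have h5 : R * R ^ η = √R * R ^ (1/2 + η) := by
    rw [Real.sqrt_eq_rpow, ← Real.rpow_add hR0]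
    nth_rewrite 1 [← Real.rpow_one R]
    rw [← Real.rpow_add hR0]
    congr 1; ring
  rw [h5] at h4
  have h6 : √R * Ed R ≤ √R * (Ed (R+s) + (3 * (2 * (2^η / η) + 2) + 12) * s * R ^ (1/2 + η)) := by
    calc _ ≤ _ := h4
      _ = _ := by ring
  exact le_of_mul_le_mul_left h6 hsq

lemma Ed_le_Av' {η : ℝ} (hη : 0 < η) : ∃ C : ℝ, 0 < C ∧ ∀ R δ : ℝ, 1 ≤ R → 0 < δ → δ ≤ 1/2 →
    Ed R ≤ Av R δ + C * (δ * R ^ (1/2 + η)) := by
  obtain ⟨C, hC, h⟩ := Ed_step' hη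
  refine ⟨2 * C, by positivity, ?_⟩
  intro R δ hR hδ hδ1
  have hR0 : 0 < R := by linarith
  have h1 := Av_lower (R := R) (δ := δ) (c := Ed R - 2 * C * (δ * R ^ (1/2 + η))) hR hδ (by
    intro s hs hs1
    have h1 := h R s hR hs (by linarith)
    have h2 : C * s * R ^ (1/2 + η) ≤ C * (2 * δ) * R ^ (1/2 + η) := by
      have : 0 ≤ R ^ (1/2 + η) := by positivity
      gcongr
    linarith)
  linarith

lemma Av_le_Ed' {η : ℝ} (hη : 0 < η) : ∃ C : ℝ, 0 < C ∧ ∀ R δ : ℝ, 2 ≤ R → 0 < δ → δ ≤ 1/2 →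
    Av (R - 2 * δ) δ ≤ Ed R + C * (δ * R ^ (1/2 + η)) := by
  obtain ⟨C, hC, h⟩ := Ed_step' hη
  refine ⟨2 * C, by positivity, ?_⟩
  intro R δ hR hδ hδ1
  have hR0 : 0 < R := by linarith
  apply Av_upper (by linarith) hδ
  intro s hs hs1
  have h1 := h (R - 2 * δ + s) (2 * δ - s) (by linarith) (by linarith) (by linarith)
  have e : R - 2 * δ + s + (2 * δ - s) = R := by ring
  rw [e] at h1
  refine h1.trans ?_
  have h3 : (R - 2 * δ + s) ^ (1/2 + η) ≤ R ^ (1/2 + η) :=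
    Real.rpow_le_rpow (by linarith) (by linarith) (by positivity)
  have h4 : 0 ≤ (R - 2 * δ + s) ^ (1/2 + η) := by
    have : 0 ≤ R - 2 * δ + s := by linarith
    positivity
  have h2 : C * (2 * δ - s) * (R - 2 * δ + s) ^ (1/2 + η) ≤ C * (2 * δ) * R ^ (1/2 + η) := by
    apply mul_le_mul _ h3 h4 (by positivity)
    apply mul_le_mul_of_nonneg_left (by linarith) hC.le
  linarith

lemma ad_bound {ε : ℝ} (hε : 0 < ε) : ∃ C1 : ℝ, 0 < C1 ∧ ∀ m : ℕ, 1 ≤ m →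
    |ad m| ≤ C1 * (m:ℝ)^(ε/8) * (m:ℝ)^(-(3/4):ℝ) := by
  obtain ⟨C1, hC1, hdiv⟩ := Pool.Agent.Helper112.divisor_bound (ε/8) (by positivity)
  refine ⟨C1, hC1, ?_⟩
  intro m hm
  have hm' : (1:ℝ) ≤ m := by exact_mod_cast hm
  have hm0 : (0:ℝ) < m := by linarith
  rw [abs_of_nonneg (ad_nonneg m)]
  have b := hdiv m hm
  unfold ad dv
  have hpi := Real.pi_gt_three
  have h2 : 1 ≤ √2 := Real.one_le_sqrt.mpr (by norm_num)
  have h3 : 1 / (Real.pi * √2) ≤ 1 := by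
    rw [div_le_one (by positivity)]; nlinarith
  calc (m.divisors.card : ℝ) * (m : ℝ) ^ (-(3 / 4) : ℝ) * (1 / (Real.pi * √2)) ≤
      (C1 * (m:ℝ) ^ (ε/8)) * (m : ℝ) ^ (-(3 / 4) : ℝ) * 1 := by
        have h4 : (m.divisors.card : ℝ) ≤ C1 * (m:ℝ) ^ (ε/8) := b
        gcongr
    _ = _ := by ring

/-- pointwise bound through the truncated smoothed Voronoi sums -/
lemma Ed_pointwise (hV : VorStmt) {η : ℝ} (hη : 0 < η) : ∃ K : ℝ, 0 < K ∧
    ∀ (R δ Z : ℝ) (Y : ℕ), 1 ≤ R → 1 ≤ Z → 0 < δ → δ ≤ 1/2 → 1 / (2 * √Z) ≤ δ → Z ≤ Y → 1 ≤ Y →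
    |Ed R| ≤ K * (1 + δ * R ^ (1/2 + η) + R ^ (-(12/25):ℝ) * Z ^ (13/50:ℝ)) +
      |∑ m ∈ Finset.Icc 1 (Y^2), wt ad (Real.pi/4) (2 * R) (2 * δ) m| +
      |∑ m ∈ Finset.Icc 1 (Y^2), wt ad (Real.pi/4) (2 * R - 4 * δ) (2 * δ) m| := by
  obtain ⟨C, hC, hV⟩ := hV
  obtain ⟨C1, hC1, hup⟩ := Ed_le_Av' hη
  obtain ⟨C2, hC2, hlo⟩ := Av_le_Ed' hη
  obtain ⟨Ca, hCa, haC⟩ := ad_Bd
  obtain ⟨Ct, hCt, htail⟩ := WS_tail (a := ad) (φ := Real.pi/4) hCa haC ad_zero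
  refine ⟨12 + C1 + C2 + 4 * C + Ct, by positivity, ?_⟩
  intro R δ Z Y hR hZ hδ hδ1 hδZ hYZ hY1
  have hR0 : 0 < R := by linarith
  have hZ0 : 0 < Z := by linarith
  have hsZ : 0 < √Z := Real.sqrt_pos.mpr hZ0
  have hY0 : (0:ℝ) < Y := by linarith
  set S1 := ∑ m ∈ Finset.Icc 1 (Y^2), wt ad (Real.pi/4) (2 * R) (2 * δ) m with hS1
  set S2 := ∑ m ∈ Finset.Icc 1 (Y^2), wt ad (Real.pi/4) (2 * R - 4 * δ) (2 * δ) m with hS2
  set A := δ * R ^ (1/2 + η) with hA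
  have hA0 : 0 ≤ A := by positivity
  set B := R ^ (-(12/25):ℝ) * Z ^ (13/50:ℝ) with hB
  have hB0 : 0 ≤ B := by positivity
  have hδpow : δ ^ (-(13/25):ℝ) ≤ 2 * Z ^ (13/50:ℝ) := by
    calc δ ^ (-(13/25):ℝ) ≤ (1 / (2 * √Z)) ^ (-(13/25):ℝ) :=
          Real.rpow_le_rpow_of_nonpos (by positivity) hδZ (by norm_num)
      _ = (2 * √Z) ^ (13/25:ℝ) := by
          rw [one_div, Real.inv_rpow (by positivity), ← Real.rpow_neg (by positivity)]
          norm_num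
      _ = 2 ^ (13/25:ℝ) * Z ^ (13/50:ℝ) := by
          rw [Real.mul_rpow (by norm_num) hsZ.le, Real.sqrt_eq_rpow, ← Real.rpow_mul hZ0.le]
          norm_num
      _ ≤ 2 * Z ^ (13/50:ℝ) := by
          apply mul_le_mul_of_nonneg_right _ (by positivity)
          calc (2:ℝ) ^ (13/25:ℝ) ≤ 2 ^ (1:ℝ) := Real.rpow_le_rpow_of_exponent_le (by norm_num) (by norm_num)
            _ = 2 := Real.rpow_one 2
  have htail1 : Ct * (2 * δ) ^ (-2:ℝ) * (Y:ℝ) ^ (-(73/50):ℝ) ≤ Ct := by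
    have h1 : (2 * δ) ^ (-2:ℝ) ≤ Z := by
      have h2 : 1 / √Z ≤ 2 * δ := by
        have : 1 / √Z = 2 * (1 / (2 * √Z)) := by field_simp
        rw [this]; linarith
      calc (2 * δ) ^ (-2:ℝ) ≤ (1 / √Z) ^ (-2:ℝ) :=
            Real.rpow_le_rpow_of_nonpos (by positivity) h2 (by norm_num)
        _ = Z := by
            rw [one_div, Real.inv_rpow hsZ.le, ← Real.rpow_neg hsZ.le, neg_neg, Real.rpow_two,
              Real.sq_sqrt hZ0.le]
    have h3 : (Y:ℝ) ^ (-(73/50):ℝ) ≤ Z ^ (-1:ℝ) := by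
      calc (Y:ℝ) ^ (-(73/50):ℝ) ≤ Z ^ (-(73/50):ℝ) :=
            Real.rpow_le_rpow_of_nonpos hZ0 hYZ (by norm_num)
        _ ≤ Z ^ (-1:ℝ) := Real.rpow_le_rpow_of_exponent_le hZ (by norm_num)
    calc Ct * (2 * δ) ^ (-2:ℝ) * (Y:ℝ) ^ (-(73/50):ℝ) ≤ Ct * Z * Z ^ (-1:ℝ) := by gcongr
      _ = Ct := by rw [Real.rpow_neg_one]; field_simp
  have hKS : 0 ≤ |S1| := abs_nonneg _
  have hKS2 : 0 ≤ |S2| := abs_nonneg _
  rcases lt_or_ge R 2 with h2 | h2
  · -- small R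
    have h3 : |Ed R| ≤ 12 := by
      unfold Ed
      have h4 : 1 ≤ √R := Real.one_le_sqrt.mpr hR
      rw [abs_div, abs_of_pos (by linarith : 0 < √R)]
      calc |Del (R^2)| / √R ≤ |Del (R^2)| := div_le_self (abs_nonneg _) h4
        _ ≤ 3 * R^2 := Del_abs (by nlinarith)
        _ ≤ 12 := by nlinarith
    have : 12 ≤ (12 + C1 + C2 + 4 * C + Ct) * (1 + A + B) := by
      have : 12 * 1 ≤ (12 + C1 + C2 + 4 * C + Ct) * (1 + A + B) := by
        apply mul_le_mul (by linarith) (by linarith) (by norm_num) (by positivity)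
      linarith
    linarith
  · have u1 := hup R δ hR hδ hδ1
    have u2 := hlo R δ h2 hδ hδ1
    have v1 := hV R δ hR hδ hδ1
    have v2 := hV (R - 2 * δ) δ (by linarith) hδ hδ1
    rw [vt_tsum] at v1 v2
    have e1 : 2 * (R - 2 * δ) = 2 * R - 4 * δ := by ring
    rw [e1] at v2
    have t1 := htail (2 * δ) (by positivity) (2 * R) Y hY1
    have t2 := htail (2 * δ) (by positivity) (2 * R - 4 * δ) Y hY1
    rw [← hS1] at t1
    rw [← hS2] at t2
    have w1 := abs_le.mp (t1.trans htail1)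
    have w2 := abs_le.mp (t2.trans htail1)
    have v1' := (abs_le.mp v1).2
    have v2' := (abs_le.mp v2).1
    have q1 : C * (R ^ (-(12/25):ℝ) * δ ^ (-(13/25):ℝ)) ≤ 2 * C * B := by
      calc C * (R ^ (-(12/25):ℝ) * δ ^ (-(13/25):ℝ)) ≤ C * (R ^ (-(12/25):ℝ) * (2 * Z ^ (13/50:ℝ))) := by gcongr
        _ = _ := by rw [hB]; ring
    have q2 : C * ((R - 2 * δ) ^ (-(12/25):ℝ) * δ ^ (-(13/25):ℝ)) ≤ 4 * C * B := by
      have q3 : (R - 2 * δ) ^ (-(12/25):ℝ) ≤ 2 * R ^ (-(12/25):ℝ) := by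
        calc (R - 2 * δ) ^ (-(12/25):ℝ) ≤ (R / 2) ^ (-(12/25):ℝ) :=
              Real.rpow_le_rpow_of_nonpos (by positivity) (by linarith) (by norm_num)
          _ = 2 ^ (12/25:ℝ) * R ^ (-(12/25):ℝ) := by
              rw [Real.div_rpow hR0.le (by norm_num), Real.rpow_neg (by norm_num : (0:ℝ) ≤ 2), div_inv_eq_mul]
              ring
          _ ≤ 2 * R ^ (-(12/25):ℝ) := by
              apply mul_le_mul_of_nonneg_right _ (by positivity)
              calc (2:ℝ) ^ (12/25:ℝ) ≤ 2 ^ (1:ℝ) := Real.rpow_le_rpow_of_exponent_le (by norm_num) (by norm_num)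
                _ = 2 := Real.rpow_one 2
      calc C * ((R - 2 * δ) ^ (-(12/25):ℝ) * δ ^ (-(13/25):ℝ)) ≤ C * ((2 * R ^ (-(12/25):ℝ)) * (2 * Z ^ (13/50:ℝ))) := by
            gcongr
        _ = _ := by rw [hB]; ring
    have a1 := le_abs_self S1
    have a2 := neg_abs_le S2
    have hK : (12 + C1 + C2 + 4 * C + Ct) * (1 + A + B) = 12 + C1 + C2 + 4 * C + Ct +
        (12 + C1 + C2 + 4 * C + Ct) * A + (12 + C1 + C2 + 4 * C + Ct) * B := by ring
    have g1 : C1 * A ≤ (12 + C1 + C2 + 4 * C + Ct) * A := mul_le_mul_of_nonneg_right (by linarith) hA0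
    have g2 : C2 * A ≤ (12 + C1 + C2 + 4 * C + Ct) * A := mul_le_mul_of_nonneg_right (by linarith) hA0
    have g3 : 4 * C * B ≤ (12 + C1 + C2 + 4 * C + Ct) * B := mul_le_mul_of_nonneg_right (by linarith) hB0
    have g4 : 2 * C * B ≤ 4 * C * B := mul_le_mul_of_nonneg_right (by linarith) hB0
    unfold Av at u1 u2
    rw [abs_le]
    constructor
    · linarith [w2.1, w2.2]
    · linarith [w1.1, w1.2]

end Pool.Agent.H452R2.Div.Sh
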