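import Mathlib
import Pool.Agent.H452R2.Div.S2

open MeasureTheory Set Filter Topology
open Pool.Agent.H387R2.Vor Pool.Agent.H383.Div Pool.Agent.H383.Gen

namespace Pool.Agent.H452R2.Div.Sh

lemma err_sum {α : ℝ} (hα : 0 < α) : ∃ C : ℝ, 0 < C ∧ ∀ X : ℝ, 1 ≤ X → ∀ L : ℕ, 1 ≤ L →
    ∑ j ∈ Finset.range L, (X + j * α) ^ (-(24/25):ℝ) * (X + L) ^ (13/25:ℝ) ≤ C * L := by
  set c := min 1 α with hc
  have hc0 : 0 < c := by positivity
  refine ⟨2 + 8 * c ^ (-(3/4):ℝ), by positivity, ?_⟩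
  intro X hX L hL
  have hL' : (1:ℝ) ≤ L := by exact_mod_cast hL
  have hL0 : (0:ℝ) < L := by linarith
  have hX0 : 0 < X := by linarith
  have h2p : (2:ℝ) ^ (13/25:ℝ) ≤ 2 := by
    calc (2:ℝ) ^ (13/25:ℝ) ≤ 2 ^ (1:ℝ) := Real.rpow_le_rpow_of_exponent_le (by norm_num) (by norm_num)
      _ = 2 := Real.rpow_one 2
  rcases le_or_gt (L:ℝ) X with h | h
  · have h1 : ∀ j ∈ Finset.range L, (X + j * α) ^ (-(24/25):ℝ) * (X + L) ^ (13/25:ℝ) ≤ 2 := by
      intro j _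
      have hj : (0:ℝ) ≤ j := Nat.cast_nonneg j
      have a1 : (X + j * α) ^ (-(24/25):ℝ) ≤ X ^ (-(24/25):ℝ) :=
        Real.rpow_le_rpow_of_nonpos hX0 (by nlinarith) (by norm_num)
      have a2 : (X + L) ^ (13/25:ℝ) ≤ 2 * X ^ (13/25:ℝ) := by
        calc (X + L) ^ (13/25:ℝ) ≤ (2 * X) ^ (13/25:ℝ) :=
              Real.rpow_le_rpow (by positivity) (by linarith) (by norm_num)
          _ = 2 ^ (13/25:ℝ) * X ^ (13/25:ℝ) := Real.mul_rpow (by norm_num) hX0.le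
          _ ≤ _ := mul_le_mul_of_nonneg_right h2p (by positivity)
      calc (X + j * α) ^ (-(24/25):ℝ) * (X + L) ^ (13/25:ℝ) ≤ X ^ (-(24/25):ℝ) * (2 * X ^ (13/25:ℝ)) := by gcongr
        _ = 2 * (X ^ (-(24/25):ℝ) * X ^ (13/25:ℝ)) := by ring
        _ = 2 * X ^ (-(11/25):ℝ) := by rw [← Real.rpow_add hX0]; norm_num
        _ ≤ 2 * 1 := by
            apply mul_le_mul_of_nonneg_left _ (by norm_num)
            exact Real.rpow_le_one_of_one_le_of_nonpos hX (by norm_num)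
        _ = 2 := by ring
    calc _ ≤ ∑ j ∈ Finset.range L, (2:ℝ) := Finset.sum_le_sum h1
      _ = 2 * L := by rw [Finset.sum_const, Finset.card_range, nsmul_eq_mul]; ring
      _ ≤ _ := by
          apply mul_le_mul_of_nonneg_right _ hL0.le
          have : 0 < 8 * c ^ (-(3/4):ℝ) := by positivity
          linarith
  · rw [← Finset.sum_mul]
    have h2 : ∑ n ∈ Finset.range L, (X + n * α) ^ (-(24/25):ℝ) ≤ c ^ (-(3/4):ℝ) * (4 * (L:ℝ) ^ (1/4:ℝ)) := by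
      calc ∑ n ∈ Finset.range L, (X + n * α) ^ (-(24/25):ℝ) ≤
          ∑ n ∈ Finset.range L, c ^ (-(3/4):ℝ) * ((n:ℝ) + 1) ^ (-(3/4):ℝ) := by
            apply Finset.sum_le_sum
            intro n _
            have hn : (0:ℝ) ≤ n := Nat.cast_nonneg n
            have hR : 1 ≤ X + n * α := by nlinarith
            have hcR : c * ((n:ℝ) + 1) ≤ X + n * α := by
              have a1 : c ≤ 1 := min_le_left _ _
              have a2 : c ≤ α := min_le_right _ _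
              nlinarith
            calc (X + n * α) ^ (-(24/25):ℝ) ≤ (X + n * α) ^ (-(3/4):ℝ) :=
                  Real.rpow_le_rpow_of_exponent_le hR (by norm_num)
              _ ≤ (c * ((n:ℝ) + 1)) ^ (-(3/4):ℝ) :=
                  Real.rpow_le_rpow_of_nonpos (by positivity) hcR (by norm_num)
              _ = _ := Real.mul_rpow hc0.le (by positivity)
        _ = c ^ (-(3/4):ℝ) * ∑ n ∈ Finset.range L, ((n:ℝ) + 1) ^ (-(3/4):ℝ) := by rw [Finset.mul_sum]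
        _ ≤ _ := by
            apply mul_le_mul_of_nonneg_left (sum_quarter L) (by positivity)
    have a2 : (X + L) ^ (13/25:ℝ) ≤ 2 * (L:ℝ) ^ (13/25:ℝ) := by
      calc (X + L) ^ (13/25:ℝ) ≤ (2 * (L:ℝ)) ^ (13/25:ℝ) :=
            Real.rpow_le_rpow (by positivity) (by linarith) (by norm_num)
        _ = 2 ^ (13/25:ℝ) * (L:ℝ) ^ (13/25:ℝ) := Real.mul_rpow (by norm_num) hL0.le
        _ ≤ _ := mul_le_mul_of_nonneg_right h2p (by positivity)
    calc (∑ n ∈ Finset.range L, (X + n * α) ^ (-(24/25):ℝ)) * (X + L) ^ (13/25:ℝ)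
        ≤ (c ^ (-(3/4):ℝ) * (4 * (L:ℝ) ^ (1/4:ℝ))) * (2 * (L:ℝ) ^ (13/25:ℝ)) := by gcongr
      _ = 8 * c ^ (-(3/4):ℝ) * ((L:ℝ) ^ (1/4:ℝ) * (L:ℝ) ^ (13/25:ℝ)) := by ring
      _ = 8 * c ^ (-(3/4):ℝ) * (L:ℝ) ^ (77/100:ℝ) := by rw [← Real.rpow_add hL0]; norm_num
      _ ≤ 8 * c ^ (-(3/4):ℝ) * (L:ℝ) ^ (1:ℝ) := by
          apply mul_le_mul_of_nonneg_left _ (by positivity)
          exact Real.rpow_le_rpow_of_exponent_le hL' (by norm_num)
      _ = 8 * c ^ (-(3/4):ℝ) * L := by rw [Real.rpow_one]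
      _ ≤ _ := by
          apply mul_le_mul_of_nonneg_right _ hL0.le
          linarith

lemma five_sq (a b c d e : ℝ) : (a + b + c + d + e)^2 ≤ 5 * (a^2 + b^2 + c^2 + d^2 + e^2) := by
  nlinarith [sq_nonneg (a-b), sq_nonneg (a-c), sq_nonneg (a-d), sq_nonneg (a-e), sq_nonneg (b-c),
    sq_nonneg (b-d), sq_nonneg (b-e), sq_nonneg (c-d), sq_nonneg (c-e), sq_nonneg (d-e)]

theorem ms_short (hV : VorStmt) {α : ℝ} (hα : 0 < α) {ε : ℝ} (hε : 0 < ε) : ∃ C : ℝ, 0 < C ∧ ∀ X : ℝ, 1 ≤ X →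
    ∀ L : ℕ, ∑ j ∈ Finset.range L, (Del ((X + j * α)^2))^2 ≤
      C * (X + L) ^ (1 + ε) * (L + (L * X) ^ (1/3:ℝ)) := by
  obtain ⟨K, hK, hpt⟩ := Ed_pointwise hV (η := ε/2) (by positivity)
  obtain ⟨Ca, hCa, hab⟩ := ad_bound hε
  obtain ⟨C2, hC2, hms⟩ := wt_ms hε hCa hab (Real.pi/4) (α := 2 * α) (by positivity)
  obtain ⟨C3, hC3, herr⟩ := err_sum hα
  set a : ℝ := 1 + α with ha
  have ha1 : 1 ≤ a := by linarith
  refine ⟨a * (5 * (K^2 + K^2 * a ^ (1 + ε) + K^2 * C3 + 2 * (C2 * 2^ε))) * 2, by positivity, ?_⟩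
  intro X hX L
  have hX0 : 0 < X := by linarith
  rcases Nat.eq_zero_or_pos L with rfl | hL
  · simp only [Finset.range_zero, Finset.sum_empty]
    positivity
  have hL' : (1:ℝ) ≤ L := by exact_mod_cast hL
  have hL0 : (0:ℝ) < L := by linarith
  set Z : ℝ := X + L with hZ
  have hZ2 : 2 ≤ Z := by rw [hZ]; linarith
  have hZ0 : 0 < Z := by linarith
  have hZ1 : 1 ≤ Z := by linarith
  have hLZ : 1 ≤ L * Z := by nlinarith
  have hsZ : 0 < √Z := Real.sqrt_pos.mpr hZ0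
  set T : ℝ := (L * Z) ^ (1/3:ℝ) with hT
  have hT0 : 0 < T := by positivity
  have hT3 : T^3 = L * Z := by
    rw [hT, ← Real.rpow_natCast, ← Real.rpow_mul (by positivity)]; norm_num
  have hT1 : 1 ≤ T := Real.one_le_rpow hLZ (by norm_num)
  set δ : ℝ := (1/2) * max (1/√Z) (1/T) with hδ
  have hsZ1 : 1 ≤ √Z := Real.one_le_sqrt.mpr hZ1
  have hδ0 : 0 < δ := by positivity
  have hδ1 : δ ≤ 1/2 := by
    have : max (1/√Z) (1/T) ≤ 1 := by
      apply max_le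
      · rw [div_le_one hsZ]; exact hsZ1
      · rw [div_le_one hT0]; exact hT1
    rw [hδ]; linarith
  have hδZ : 1 / (2 * √Z) ≤ δ := by
    have h1 := le_max_left (1/√Z) (1/T)
    have : 1 / (2 * √Z) = (1/2) * (1/√Z) := by field_simp
    rw [this, hδ]; linarith
  have hδT : 1 / (2 * δ) ≤ T := by
    have h1 := le_max_right (1/√Z) (1/T)
    rw [div_le_iff₀ (by positivity), hδ]
    have h2 : T * (1/T) = 1 := by field_simp
    have h3 : T * (1/T) ≤ T * max (1/√Z) (1/T) := mul_le_mul_of_nonneg_left h1 hT0.le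
    calc 1 = T * (1/T) := h2.symm
      _ ≤ T * max (1/√Z) (1/T) := h3
      _ = _ := by ring
  have hδ2 : δ^2 * (L * Z) ≤ L + T := by
    have h1 : (max (1/√Z) (1/T))^2 ≤ 1/Z + 1/T^2 := by
      rcases le_total (1/√Z) (1/T) with h | h
      · rw [max_eq_right h, div_pow, one_pow]
        have : 0 < 1/Z := by positivity
        linarith
      · rw [max_eq_left h, div_pow, one_pow, Real.sq_sqrt hZ0.le]
        have : 0 < 1/T^2 := by positivity
        linarith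
    have h2 : (1/Z + 1/T^2) * (L * Z) = L + T := by
      have : (1/T^2) * (L * Z) = T := by
        rw [← hT3]; field_simp
      rw [add_mul, this]
      field_simp
    have h3 : (max (1/√Z) (1/T))^2 * (L * Z) ≤ L + T := by
      rw [← h2]; exact mul_le_mul_of_nonneg_right h1 (by positivity)
    have h4 : 0 ≤ (max (1/√Z) (1/T))^2 * (L * Z) := by positivity
    calc δ^2 * (L * Z) = (1/4) * ((max (1/√Z) (1/T))^2 * (L * Z)) := by rw [hδ]; ring
      _ ≤ _ := by linarith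
  set Y : ℕ := ⌈Z⌉₊ with hY
  have hYZ : Z ≤ Y := Nat.le_ceil Z
  have hY1 : 1 ≤ Y := by
    have : (1:ℝ) ≤ Y := by linarith
    exact_mod_cast this
  have hY2 : (Y:ℝ) ≤ 2 * Z := by
    have := Nat.ceil_lt_add_one hZ0.le
    linarith
  have hZε : 1 ≤ Z^ε := Real.one_le_rpow hZ1 hε.le
  -- the two sums
  have hsum : ∀ β : ℝ, ∑ j ∈ Finset.range L, (∑ m ∈ Finset.Icc 1 (Y^2),
      wt ad (Real.pi/4) (β + j * (2 * α)) (2 * δ) m)^2 ≤ (C2 * 2^ε) * Z^ε * (L + T) := by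
    intro β
    refine (hms β (2 * δ) Y L (by positivity) hY1 hL).trans ?_
    have h1 : (Y:ℝ)^ε ≤ 2^ε * Z^ε := by
      rw [← Real.mul_rpow (by norm_num) hZ0.le]
      exact Real.rpow_le_rpow (by positivity) hY2 hε.le
    have h2 : (L:ℝ) * (1 + 1/(L * (2 * δ))) = L + 1/(2 * δ) := by
      field_simp
    calc C2 * L * (1 + 1/(L*(2 * δ))) * (Y:ℝ)^ε = C2 * (L * (1 + 1/(L*(2 * δ)))) * (Y:ℝ)^ε := by ring
      _ = C2 * (L + 1/(2 * δ)) * (Y:ℝ)^ε := by rw [h2]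
      _ ≤ C2 * (L + T) * (2^ε * Z^ε) := by gcongr
      _ = _ := by ring
  -- pointwise
  have hpt' : ∀ j ∈ Finset.range L, (Del ((X + j * α)^2))^2 ≤
      (a * Z) * (5 * (K^2 + K^2 * (δ^2 * (a ^ (1 + ε) * Z ^ (1 + ε))) +
        K^2 * ((X + j * α) ^ (-(24/25):ℝ) * Z ^ (13/25:ℝ)) +
        (∑ m ∈ Finset.Icc 1 (Y^2), wt ad (Real.pi/4) (2 * X + j * (2 * α)) (2 * δ) m)^2 +
        (∑ m ∈ Finset.Icc 1 (Y^2), wt ad (Real.pi/4) ((2 * X - 4 * δ) + j * (2 * α)) (2 * δ) m)^2)) := by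
    intro j hj
    rw [Finset.mem_range] at hj
    set R : ℝ := X + j * α with hR
    have hj0 : (0:ℝ) ≤ j := Nat.cast_nonneg j
    have hjL : (j:ℝ) ≤ L := by exact_mod_cast hj.le
    have hR1 : 1 ≤ R := by rw [hR]; nlinarith
    have hR0 : 0 < R := by linarith
    have hRZ : R ≤ a * Z := by
      rw [hR, ha, hZ]
      have : (j:ℝ) * α ≤ L * α := mul_le_mul_of_nonneg_right hjL hα.le
      nlinarith
    have hP := hpt R δ Z Y hR1 hZ1 hδ0 hδ1 hδZ hYZ hY1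
    have e1 : 2 * X + j * (2 * α) = 2 * R := by rw [hR]; ring
    have e2 : (2 * X - 4 * δ) + j * (2 * α) = 2 * R - 4 * δ := by rw [hR]; ring
    rw [e1, e2]
    set v1 := ∑ m ∈ Finset.Icc 1 (Y^2), wt ad (Real.pi/4) (2 * R) (2 * δ) m with hv1
    set v2 := ∑ m ∈ Finset.Icc 1 (Y^2), wt ad (Real.pi/4) (2 * R - 4 * δ) (2 * δ) m with hv2
    have hEd : (Ed R)^2 ≤ 5 * (K^2 + K^2 * (δ^2 * (a ^ (1 + ε) * Z ^ (1 + ε))) +
        K^2 * (R ^ (-(24/25):ℝ) * Z ^ (13/25:ℝ)) + v1^2 + v2^2) := by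
      have h1 : (Ed R)^2 ≤ (K + K * (δ * R ^ (1/2 + ε/2)) + K * (R ^ (-(12/25):ℝ) * Z ^ (13/50:ℝ)) + |v1| + |v2|)^2 := by
        rw [← sq_abs]
        apply pow_le_pow_left₀ (abs_nonneg _)
        refine hP.trans (le_of_eq ?_)
        ring
      refine h1.trans ((five_sq _ _ _ _ _).trans ?_)
      have h2 : (K * (δ * R ^ (1/2 + ε/2)))^2 ≤ K^2 * (δ^2 * (a ^ (1 + ε) * Z ^ (1 + ε))) := by
        have h3 : (R ^ (1/2 + ε/2))^2 = R ^ (1 + ε) := by
          rw [← Real.rpow_natCast, ← Real.rpow_mul hR0.le]; congr 1; push_cast; ring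
        have h4 : R ^ (1 + ε) ≤ a ^ (1 + ε) * Z ^ (1 + ε) := by
          rw [← Real.mul_rpow (by linarith) hZ0.le]
          exact Real.rpow_le_rpow hR0.le hRZ (by positivity)
        calc (K * (δ * R ^ (1/2 + ε/2)))^2 = K^2 * (δ^2 * (R ^ (1/2 + ε/2))^2) := by ring
          _ ≤ _ := by rw [h3]; gcongr
      have h5 : (K * (R ^ (-(12/25):ℝ) * Z ^ (13/50:ℝ)))^2 = K^2 * (R ^ (-(24/25):ℝ) * Z ^ (13/25:ℝ)) := by
        have i1 : (R ^ (-(12/25):ℝ))^2 = R ^ (-(24/25):ℝ) := by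
          rw [← Real.rpow_natCast, ← Real.rpow_mul hR0.le]; norm_num
        have i2 : (Z ^ (13/50:ℝ))^2 = Z ^ (13/25:ℝ) := by
          rw [← Real.rpow_natCast, ← Real.rpow_mul hZ0.le]; norm_num
        rw [mul_pow, mul_pow, i1, i2]
      rw [h5, sq_abs, sq_abs]
      linarith
    have hDel : (Del (R^2))^2 = R * (Ed R)^2 := by
      unfold Ed
      rw [div_pow, Real.sq_sqrt hR0.le]
      field_simp
    rw [hDel]
    apply mul_le_mul hRZ hEd (sq_nonneg _) (by positivity)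
  have hfin : ∑ j ∈ Finset.range L, (Del ((X + j * α)^2))^2 ≤
      (a * Z) * (5 * (K^2 * L + K^2 * a ^ (1 + ε) * (Z^ε * (L + T)) + K^2 * (C3 * L) +
        (C2 * 2^ε) * Z^ε * (L + T) + (C2 * 2^ε) * Z^ε * (L + T))) := by
    refine (Finset.sum_le_sum hpt').trans ?_
    rw [← Finset.mul_sum, ← Finset.mul_sum]
    apply mul_le_mul_of_nonneg_left _ (by positivity)
    apply mul_le_mul_of_nonneg_left _ (by norm_num)
    simp only [Finset.sum_add_distrib]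
    have g1 := hsum (2 * X)
    have g2 := hsum (2 * X - 4 * δ)
    have g3 := herr X hX L hL
    rw [← hZ] at g3
    have g4 : ∑ j ∈ Finset.range L, K^2 * ((X + j * α) ^ (-(24/25):ℝ) * Z ^ (13/25:ℝ)) ≤ K^2 * (C3 * L) := by
      rw [← Finset.mul_sum]
      exact mul_le_mul_of_nonneg_left g3 (by positivity)
    have g5 : ∑ j ∈ Finset.range L, K^2 * (δ^2 * (a ^ (1 + ε) * Z ^ (1 + ε))) ≤ K^2 * a ^ (1 + ε) * (Z^ε * (L + T)) := by
      rw [Finset.sum_const, Finset.card_range, nsmul_eq_mul, Real.rpow_add hZ0, Real.rpow_one]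
      calc (L:ℝ) * (K^2 * (δ^2 * (a ^ (1 + ε) * (Z * Z^ε)))) = K^2 * a ^ (1 + ε) * (Z^ε * (δ^2 * (L * Z))) := by ring
        _ ≤ _ := by gcongr
    have g6 : ∑ j ∈ Finset.range L, K^2 = K^2 * L := by
      rw [Finset.sum_const, Finset.card_range, nsmul_eq_mul]; ring
    linarith
  have hTX : T ≤ (L * X) ^ (1/3:ℝ) + L := by
    have h1 : (L * Z : ℝ) = L * X + L * L := by rw [hZ]; ring
    rw [hT, h1]
    refine (Real.rpow_add_le_add_rpow (by positivity) (by positivity) (by norm_num) (by norm_num)).trans ?_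
    have h2 : (L * L : ℝ) ^ (1/3:ℝ) ≤ L := by
      have h3 : (L * L : ℝ) = (L:ℝ) ^ (2:ℝ) := by rw [Real.rpow_two]; ring
      rw [h3, ← Real.rpow_mul hL0.le]
      calc (L:ℝ) ^ (2 * (1/3:ℝ)) ≤ (L:ℝ) ^ (1:ℝ) := Real.rpow_le_rpow_of_exponent_le hL' (by norm_num)
        _ = L := Real.rpow_one _
    linarith
  have hW0 : 0 ≤ (L * X : ℝ) ^ (1/3:ℝ) := by positivity
  set W := (L * X : ℝ) ^ (1/3:ℝ) with hW
  calc ∑ j ∈ Finset.range L, (Del ((X + j * α)^2))^2 ≤ _ := hfin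
    _ ≤ (a * Z) * (5 * (K^2 * (Z^ε * (2 * (L + W))) + K^2 * a ^ (1 + ε) * (Z^ε * (2 * (L + W))) +
        K^2 * (C3 * (Z^ε * (2 * (L + W)))) +
        (C2 * 2^ε) * Z^ε * (2 * (L + W)) + (C2 * 2^ε) * Z^ε * (2 * (L + W)))) := by
        have hLW : (L:ℝ) + T ≤ 2 * (L + W) := by linarith
        have hL1 : (L:ℝ) ≤ Z^ε * (2 * (L + W)) := by
          calc (L:ℝ) = 1 * L := by ring
            _ ≤ Z^ε * (2 * (L + W)) := by
                apply mul_le_mul hZε (by linarith) hL0.le (by positivity)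
        gcongr
    _ = _ := by
        rw [Real.rpow_add hZ0, Real.rpow_one]
        ring

end Pool.Agent.H452R2.Div.Sh
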