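import Mathlib
import Pool.Agent.H452R2.Div.S3

open MeasureTheory Set Filter Topology
open Pool.Agent.H387R2.Vor Pool.Agent.H383.Div Pool.Agent.H383.Gen

namespace Pool.Agent.H452R2.Div.Sh

lemma Del_pert_aux {S : ℝ} (hS : 0 ≤ S) {ε : ℝ} (hε : 0 < ε) : ∃ C : ℝ, 0 < C ∧ ∀ x y : ℝ, 1 ≤ x → x ≤ y → y - x ≤ S →
    |Del y - Del x| ≤ C * y ^ ε := by
  obtain ⟨C1, hC1, hdiv⟩ := Pool.Agent.Helper112.divisor_bound ε hε
  refine ⟨(S + 1) * C1 + S * (1/ε + 2), by positivity, ?_⟩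
  intro x y hx hxy hS'
  have hx0 : 0 < x := by linarith
  have hy1 : 1 ≤ y := by linarith
  have hy0 : 0 < y := by linarith
  have hg1 := Real.one_half_lt_eulerMascheroniConstant
  have hg2 := Real.eulerMascheroniConstant_lt_two_thirds
  have hyε : 1 ≤ y ^ ε := Real.one_le_rpow hy1 hε.le
  -- main term
  have hm1 := mt_sub hx hxy
  have hm0 : 0 ≤ mt y - mt x := by
    unfold Pool.Agent.H383.Div.mt
    set g := Real.eulerMascheroniConstant
    have h1 : Real.log x ≤ Real.log y := Real.log_le_log hx0 hxy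
    have h0 : 0 ≤ Real.log x := Real.log_nonneg hx
    have h2 : x * Real.log x ≤ y * Real.log y := mul_le_mul hxy h1 h0 hy0.le
    have h3 : 0 ≤ (2 * g - 1) * (y - x) := mul_nonneg (by linarith) (by linarith)
    linarith
  have hm2 : mt y - mt x ≤ S * (1/ε + 2) * y ^ ε := by
    have h1 := Real.log_le_rpow_div hy0.le hε
    have h0 : 0 ≤ Real.log y := Real.log_nonneg hy1
    have h2 : y ^ ε / ε = 1/ε * y ^ ε := by ring
    rw [h2] at h1
    calc mt y - mt x ≤ (y - x) * (Real.log y + 2) := hm1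
      _ ≤ S * (Real.log y + 2) := mul_le_mul_of_nonneg_right hS' (by linarith)
      _ ≤ S * ((1/ε + 2) * y ^ ε) := by
          apply mul_le_mul_of_nonneg_left _ hS
          nlinarith
      _ = _ := by ring
  -- divisor sum
  have hd0 : 0 ≤ Dsum y - Dsum x := by
    have := Dsum_mono hxy
    linarith
  have hd1 : Dsum y - Dsum x ≤ (S + 1) * C1 * y ^ ε := by
    have hfl : ⌊x⌋₊ ≤ ⌊y⌋₊ := Nat.floor_mono hxy
    have e1 : Dsum y - Dsum x = ∑ n ∈ Finset.Ioc ⌊x⌋₊ ⌊y⌋₊, dv n := by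
      unfold Dsum
      have i1 : ∀ m : ℕ, Finset.Icc 1 m = Finset.Ioc 0 m := by
        intro m; ext n; simp only [Finset.mem_Icc, Finset.mem_Ioc]; omega
      rw [i1, i1, ← Finset.sum_Ioc_consecutive _ (Nat.zero_le _) hfl]
      ring
    rw [e1]
    have hb : ∀ n ∈ Finset.Ioc ⌊x⌋₊ ⌊y⌋₊, dv n ≤ C1 * y ^ ε := by
      intro n hn
      rw [Finset.mem_Ioc] at hn
      have hn1 : 1 ≤ n := by omega
      have h1 := hdiv n hn1
      have h2 : (n:ℝ) ≤ y := by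
        have : (n:ℝ) ≤ ⌊y⌋₊ := by exact_mod_cast hn.2
        exact this.trans (Nat.floor_le hy0.le)
      unfold dv
      calc (n.divisors.card : ℝ) ≤ C1 * (n:ℝ) ^ ε := h1
        _ ≤ C1 * y ^ ε := by
            apply mul_le_mul_of_nonneg_left _ hC1.le
            exact Real.rpow_le_rpow (Nat.cast_nonneg n) h2 hε.le
    have hcard : ((Finset.Ioc ⌊x⌋₊ ⌊y⌋₊).card : ℝ) ≤ S + 1 := by
      rw [Nat.card_Ioc, Nat.cast_sub hfl]
      have h1 := Nat.floor_le hy0.le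
      have h2 := Nat.lt_floor_add_one x
      linarith
    calc _ ≤ ∑ n ∈ Finset.Ioc ⌊x⌋₊ ⌊y⌋₊, C1 * y ^ ε := Finset.sum_le_sum hb
      _ = ((Finset.Ioc ⌊x⌋₊ ⌊y⌋₊).card : ℝ) * (C1 * y ^ ε) := by rw [Finset.sum_const, nsmul_eq_mul]
      _ ≤ (S + 1) * (C1 * y ^ ε) := mul_le_mul_of_nonneg_right hcard (by positivity)
      _ = _ := by ring
  rw [Del_eq, Del_eq, abs_le]
  have h1 : 0 ≤ (S + 1) * C1 * y ^ ε := by positivity
  have h2 : 0 ≤ S * (1/ε + 2) * y ^ ε := by positivity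
  have h3 : ((S + 1) * C1 + S * (1/ε + 2)) * y ^ ε = (S + 1) * C1 * y ^ ε + S * (1/ε + 2) * y ^ ε := by ring
  constructor
  · linarith
  · linarith

lemma Del_pert {S : ℝ} (hS : 0 ≤ S) {ε : ℝ} (hε : 0 < ε) : ∃ C : ℝ, 0 < C ∧ ∀ x y : ℝ, 1 ≤ x → 1 ≤ y → |x - y| ≤ S →
    |Del x - Del y| ≤ C * y ^ ε := by
  obtain ⟨C, hC, h⟩ := Del_pert_aux hS hε
  refine ⟨C * (1 + S) ^ ε, by positivity, ?_⟩
  intro x y hx hy hxy
  have hy0 : 0 < y := by linarith
  have h1S : 1 ≤ (1 + S) ^ ε := Real.one_le_rpow (by linarith) hε.le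
  rcases le_total x y with h1 | h1
  · have h2 := h x y hx h1 (by rw [abs_sub_comm, abs_of_nonneg (by linarith)] at hxy; exact hxy)
    rw [abs_sub_comm] at h2
    calc _ ≤ C * y ^ ε := h2
      _ ≤ C * (1 + S) ^ ε * y ^ ε := by
          have : 0 ≤ C * y ^ ε := by positivity
          nlinarith
  · have hd : x - y ≤ S := by rw [abs_of_nonneg (by linarith)] at hxy; exact hxy
    have h2 := h y x hy h1 hd
    calc _ ≤ C * x ^ ε := h2
      _ ≤ C * ((1 + S) * y) ^ ε := by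
          apply mul_le_mul_of_nonneg_left _ hC.le
          apply Real.rpow_le_rpow (by linarith) _ hε.le
          nlinarith
      _ = _ := by rw [Real.mul_rpow (by linarith) hy0.le]; ring

theorem ms_short_pert (hV : VorStmt) {α : ℝ} (hα : 0 < α) {S : ℝ} (hS : 0 ≤ S) {ε : ℝ} (hε : 0 < ε) :
    ∃ C : ℝ, 0 < C ∧ ∀ X : ℝ, 1 ≤ X → ∀ (L : ℕ) (x : ℕ → ℝ), (∀ j < L, 1 ≤ x j ∧ |x j - (X + j * α)^2| ≤ S) →
    ∑ j ∈ Finset.range L, (Del (x j))^2 ≤ C * (X + L) ^ (1 + ε) * (L + (L * X) ^ (1/3:ℝ)) := by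
  obtain ⟨C1, hC1, h1⟩ := ms_short hV hα hε
  obtain ⟨C2, hC2, h2⟩ := Del_pert hS (ε := (1 + ε)/4) (by positivity)
  set a : ℝ := 1 + α with ha
  have ha0 : 0 < a := by positivity
  refine ⟨2 * C1 + 2 * C2^2 * a ^ (1 + ε), by positivity, ?_⟩
  intro X hX L x hx
  have hX0 : 0 < X := by linarith
  have hL0 : (0:ℝ) ≤ L := Nat.cast_nonneg L
  have hpt : ∀ j ∈ Finset.range L, (Del (x j))^2 ≤ 2 * (Del ((X + j * α)^2))^2 + 2 * C2^2 * (a ^ (1 + ε) * (X + L) ^ (1 + ε)) := by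
    intro j hj
    rw [Finset.mem_range] at hj
    obtain ⟨hx1, hx2⟩ := hx j hj
    have hj0 : (0:ℝ) ≤ j := Nat.cast_nonneg j
    have hjL : (j:ℝ) ≤ L := by exact_mod_cast hj.le
    set R : ℝ := X + j * α with hR
    have hR1 : 1 ≤ R := by rw [hR]; nlinarith
    have hR0 : 0 < R := by linarith
    have hRZ : R ≤ a * (X + L) := by
      rw [hR, ha]
      have : (j:ℝ) * α ≤ L * α := mul_le_mul_of_nonneg_right hjL hα.le
      nlinarith
    have h3 := h2 (x j) (R^2) hx1 (by nlinarith) hx2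
    have h4 : (Del (x j))^2 ≤ 2 * (Del (R^2))^2 + 2 * (C2 * (R^2) ^ ((1 + ε)/4))^2 := by
      have e : (Del (x j) - Del (R^2))^2 ≤ (C2 * (R^2) ^ ((1 + ε)/4))^2 := by
        rw [← sq_abs]; exact pow_le_pow_left₀ (abs_nonneg _) h3 2
      nlinarith [sq_nonneg (Del (x j) - 2 * Del (R^2))]
    refine h4.trans ?_
    have h5 : (C2 * (R^2) ^ ((1 + ε)/4))^2 = C2^2 * R ^ (1 + ε) := by
      rw [mul_pow, ← Real.rpow_natCast R 2, ← Real.rpow_mul hR0.le, ← Real.rpow_natCast (R ^ _), ← Real.rpow_mul hR0.le]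
      congr 2; push_cast; ring
    have h6 : R ^ (1 + ε) ≤ a ^ (1 + ε) * (X + L) ^ (1 + ε) := by
      rw [← Real.mul_rpow ha0.le (by positivity)]
      exact Real.rpow_le_rpow hR0.le hRZ (by positivity)
    rw [h5]
    have h7 : 2 * (C2^2 * R ^ (1 + ε)) ≤ 2 * C2^2 * (a ^ (1 + ε) * (X + L) ^ (1 + ε)) := by
      rw [← mul_assoc]
      exact mul_le_mul_of_nonneg_left h6 (by positivity)
    linarith
  refine (Finset.sum_le_sum hpt).trans ?_
  rw [Finset.sum_add_distrib, ← Finset.mul_sum, Finset.sum_const, Finset.card_range, nsmul_eq_mul]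
  have h3 := h1 X hX L
  have hW0 : 0 ≤ (L * X : ℝ) ^ (1/3:ℝ) := by positivity
  have hZ0 : 0 ≤ (X + L) ^ (1 + ε) := by positivity
  have h4 : (L:ℝ) * (2 * C2^2 * (a ^ (1 + ε) * (X + L) ^ (1 + ε))) ≤
      2 * C2^2 * a ^ (1 + ε) * (X + L) ^ (1 + ε) * (L + (L * X) ^ (1/3:ℝ)) := by
    have : 0 ≤ 2 * C2^2 * a ^ (1 + ε) * (X + L) ^ (1 + ε) * (L * X) ^ (1/3:ℝ) := by positivity
    nlinarith
  linarith

end Pool.Agent.H452R2.Div.Sh
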